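import Mathlib
import Pool.Agent.W966.Vg.Stms5

/-! Task VH-RES (helper966): elimination of the parameter of a line. -/

set_option autoImplicit false

namespace Pool.Agent.W334.VHRes

open Polynomial

section gauss

variable {A : Type} [CommRing A] [IsDomain A] [UniqueFactorizationMonoid A]

/-- relatively prime polynomials over a UFD: a nonzero constant is a combination -/
lemma gauss {F G : A[X]} (h : IsRelPrime F G) :
    ∃ (U V : A[X]) (R : A), R ≠ 0 ∧ U * F + V * G = C R := by
  classical
  obtain ⟨inst⟩ : Nonempty (NormalizedGCDMonoid A) := inferInstance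
  have hinj : Function.Injective (Polynomial.map (algebraMap A (FractionRing A))) :=
    map_injective _ (IsFractionRing.injective A (FractionRing A))
  set F' := F.map (algebraMap A (FractionRing A)) with hF'
  set G' := G.map (algebraMap A (FractionRing A)) with hG'
  have hcop : IsCoprime F' G' := by
    rw [← EuclideanDomain.gcd_isUnit_iff]
    set d := EuclideanDomain.gcd F' G' with hd
    have hdF : d ∣ F' := EuclideanDomain.gcd_dvd_left _ _
    have hdG : d ∣ G' := EuclideanDomain.gcd_dvd_right _ _
    have hd0 : d ≠ 0 := by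
      intro h0
      rw [hd, EuclideanDomain.gcd_eq_zero_iff] at h0
      have h1 : F = 0 := hinj (by rw [← hF', h0.1, Polynomial.map_zero])
      have h2 : G = 0 := hinj (by rw [← hG', h0.2, Polynomial.map_zero])
      have h3 : IsUnit (X : A[X]) := h (by rw [h1]; exact dvd_zero _) (by rw [h2]; exact dvd_zero _)
      exact not_isUnit_X h3
    obtain ⟨b, hbm, hb⟩ := IsLocalization.integerNormalization_spec (nonZeroDivisors A) d
    set N := IsLocalization.integerNormalization (nonZeroDivisors A) d with hN
    have hb0 : algebraMap A (FractionRing A) b ≠ 0 := by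
      rw [Ne, IsFractionRing.to_map_eq_zero_iff]
      exact nonZeroDivisors.ne_zero hbm
    have hb' : N.map (algebraMap A (FractionRing A)) =
        C (algebraMap A (FractionRing A) b) * d := by
      rw [hb, ← smul_eq_C_mul, algebraMap_smul]
    have hub : IsUnit (C (algebraMap A (FractionRing A) b)) :=
      isUnit_C.2 (isUnit_iff_ne_zero.2 hb0)
    have hN0 : N ≠ 0 := by
      intro h0
      rw [h0, Polynomial.map_zero] at hb'
      exact (mul_ne_zero hub.ne_zero hd0) hb'.symm
    have hcN : algebraMap A (FractionRing A) N.content ≠ 0 := by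
      rw [Ne, IsFractionRing.to_map_eq_zero_iff, content_eq_zero_iff]
      exact hN0
    have hN1 : N.map (algebraMap A (FractionRing A)) =
        C (algebraMap A (FractionRing A) N.content) * N.primPart.map
          (algebraMap A (FractionRing A)) := by
      conv_lhs => rw [N.eq_C_content_mul_primPart]
      rw [Polynomial.map_mul, map_C]
    have hpd : N.primPart.map (algebraMap A (FractionRing A)) ∣ d := by
      refine (IsUnit.dvd_mul_left hub).1 ?_
      rw [← hb', hN1]
      exact dvd_mul_left _ _
    have h1 : N.primPart ∣ F := N.isPrimitive_primPart.dvd_of_fraction_map_dvd_fraction_map (hpd.trans hdF)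
    have h2 : N.primPart ∣ G := N.isPrimitive_primPart.dvd_of_fraction_map_dvd_fraction_map (hpd.trans hdG)
    have h3 : IsUnit N.primPart := h h1 h2
    have h4 : IsUnit (N.primPart.map (algebraMap A (FractionRing A))) :=
      h3.map (mapRingHom (algebraMap A (FractionRing A)))
    have h5 : IsUnit (N.map (algebraMap A (FractionRing A))) := by
      rw [hN1]
      exact (isUnit_C.2 (isUnit_iff_ne_zero.2 hcN)).mul h4
    rw [hb'] at h5
    exact isUnit_of_mul_isUnit_right h5
  obtain ⟨u, v, huv⟩ := hcop
  obtain ⟨b, hbm, hb⟩ := IsLocalization.integerNormalization_spec (nonZeroDivisors A) u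
  obtain ⟨c, hcm, hc⟩ := IsLocalization.integerNormalization_spec (nonZeroDivisors A) v
  refine ⟨C c * IsLocalization.integerNormalization (nonZeroDivisors A) u,
    C b * IsLocalization.integerNormalization (nonZeroDivisors A) v, b * c,
    mul_ne_zero (nonZeroDivisors.ne_zero hbm) (nonZeroDivisors.ne_zero hcm), hinj ?_⟩
  rw [Polynomial.map_add, Polynomial.map_mul, Polynomial.map_mul, Polynomial.map_mul,
    Polynomial.map_mul, hb, hc, map_C, map_C, map_C, ← hF', ← hG',
    ← algebraMap_smul (FractionRing A) b u, ← algebraMap_smul (FractionRing A) c v,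
    smul_eq_C_mul, smul_eq_C_mul, map_mul, map_mul]
  linear_combination (C (algebraMap A (FractionRing A) b) *
    C (algebraMap A (FractionRing A) c)) * huv

end gauss

section line

variable {K ι : Type} [Field K]

/-- the substitution `X_i ↦ X_i + a_i Y` -/
noncomputable def sh (a : ι → K) : (MvPolynomial ι K)[X] →+* (MvPolynomial ι K)[X] :=
  eval₂RingHom (MvPolynomial.eval₂Hom ((C : MvPolynomial ι K →+* _).comp MvPolynomial.C)
    (fun i => C (MvPolynomial.X i) + C (MvPolynomial.C (a i)) * X)) X

lemma sh_X (a : ι → K) : sh a X = X := by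
  simp [sh]

lemma sh_CC (a : ι → K) (r : K) : sh a (C (MvPolynomial.C r)) = C (MvPolynomial.C r) := by
  simp [sh]

lemma sh_CX (a : ι → K) (i : ι) : sh a (C (MvPolynomial.X i)) =
    C (MvPolynomial.X i) + C (MvPolynomial.C (a i)) * X := by
  simp [sh]

lemma sh_sh (a b : ι → K) (hab : ∀ i, a i + b i = 0) (p : (MvPolynomial ι K)[X]) :
    sh a (sh b p) = p := by
  have h : (sh a).comp (sh b) = RingHom.id _ := by
    refine Polynomial.ringHom_ext' ?_ ?_
    · refine MvPolynomial.ringHom_ext' ?_ ?_
      · ext r
        simp [sh_CC]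
      · intro i
        have h1 : sh a (C (MvPolynomial.X i) + C (MvPolynomial.C (b i)) * X) =
            C (MvPolynomial.X i) + C (MvPolynomial.C (a i)) * X + C (MvPolynomial.C (b i)) * X := by
          rw [map_add, map_mul, sh_CX, sh_CC, sh_X]
        have h2 : (C (MvPolynomial.C (a i)) : (MvPolynomial ι K)[X]) + C (MvPolynomial.C (b i)) =
            0 := by
          rw [← C_add, ← MvPolynomial.C_add, hab, MvPolynomial.C_0, C_0]
        simp only [RingHom.coe_comp, Function.comp_apply, RingHom.id_apply, sh_CX, h1]
        linear_combination X * h2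
    · simp [sh_X]
  exact congrArg (fun f => f p) h

/-- constants which are relatively prime stay so in `A[Y]` -/
lemma relC {A : Type} [CommRing A] [IsDomain A] {f g : A} (h : IsRelPrime f g) :
    IsRelPrime (C f : A[X]) (C g) := by
  intro d hf hg
  by_cases hf0 : f = 0
  · subst hf0
    have hg1 : IsUnit g := h (dvd_zero _) (dvd_refl _)
    exact isUnit_of_dvd_unit hg (isUnit_C.2 hg1)
  · have hd : d.natDegree = 0 := by
      have h1 := natDegree_le_of_dvd hf (C_ne_zero.2 hf0)
      rw [natDegree_C] at h1
      exact Nat.le_zero.1 h1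
    rw [eq_C_of_natDegree_eq_zero hd] at hf hg ⊢
    have h1 : d.coeff 0 ∣ f := by
      have := (C_dvd_iff_dvd_coeff _ _).1 hf 0
      rwa [coeff_C_zero] at this
    have h2 : d.coeff 0 ∣ g := by
      have := (C_dvd_iff_dvd_coeff _ _).1 hg 0
      rwa [coeff_C_zero] at this
    exact isUnit_C.2 (h h1 h2)

lemma rel_sh (a : ι → K) {f g : MvPolynomial ι K} (h : IsRelPrime f g) :
    IsRelPrime (sh a (C f)) (sh a (C g)) := by
  intro d hf hg
  have e1 := map_dvd (sh (-a)) hf
  have e2 := map_dvd (sh (-a)) hg
  rw [sh_sh (-a) a (by simp)] at e1 e2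
  have h1 : IsUnit (sh (-a) d) := relC h e1 e2
  have h2 := h1.map (sh a)
  rwa [sh_sh a (-a) (by simp)] at h2

/-- evaluation at `(x, y)` -/
noncomputable def ev (x : ι → K) (y : K) : (MvPolynomial ι K)[X] →+* K :=
  eval₂RingHom (MvPolynomial.eval x) y

lemma ev_sh (a x : ι → K) (y : K) (f : MvPolynomial ι K) :
    ev x y (sh a (C f)) = MvPolynomial.eval (fun i => x i + y * a i) f := by
  have h : ((ev x y).comp (sh a)).comp C = MvPolynomial.eval (fun i => x i + y * a i) := by
    refine MvPolynomial.ringHom_ext' ?_ ?_
    · ext r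
      simp [sh_CC, ev]
    · intro i
      simp [sh_CX, ev]
      ring
  exact congrArg (fun g => g f) h

end line

theorem main : Pool.Agent.W966.Vg.S_RES := by
  intro K ι _ _ f g a h
  obtain ⟨U, V, R, hR, hUV⟩ := gauss (rel_sh a h)
  refine ⟨R, hR, fun x y hf hg => ?_⟩
  have h1 := congrArg (ev x y) hUV
  rw [map_add, map_mul, map_mul, ev_sh, ev_sh, hf, hg, mul_zero, mul_zero, add_zero] at h1
  have h2 : ev x y (C R) = MvPolynomial.eval x R := by simp [ev]
  rw [← h2, ← h1]

end Pool.Agent.W334.VHRes
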